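import Pool.Agent.Y198.DC.Stm2

/-!
Job DD-MF of helper198: matrix factorizations of the elements of `I ^ 2` with entries in `I`.
-/

universe u

namespace Pool.Agent.Y604.DC.MF

open Pool.Agent.Y198.DC

/-- the conclusion for `f` -/
def Cf {S : Type u} [CommRing S] (I : Ideal S) (f : S) : Prop :=
  ∃ (ι : Type) (_ : Fintype ι) (_ : DecidableEq ι) (_ : Nonempty ι) (A B : Matrix ι ι S),
    (∀ i j, A i j ∈ I) ∧ (∀ i j, B i j ∈ I) ∧ A * B = f • (1 : Matrix ι ι S) ∧
      B * A = f • (1 : Matrix ι ι S)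

theorem zero {S : Type u} [CommRing S] (I : Ideal S) : Cf I 0 :=
  ⟨Unit, inferInstance, inferInstance, inferInstance, 0, 0, fun _ _ => I.zero_mem,
    fun _ _ => I.zero_mem, by simp, by simp⟩

theorem step {S : Type u} [CommRing S] {I : Ideal S} {f a b : S} (h : Cf I f) (ha : a ∈ I)
    (hb : b ∈ I) : Cf I (f + a * b) := by
  obtain ⟨ι, _, _, _, A, B, hA, hB, h1, h2⟩ := h
  have hs : ∀ c ∈ I, ∀ i j : ι, (c • (1 : Matrix ι ι S)) i j ∈ I := by
    intro c hc i j
    rw [Matrix.smul_apply, smul_eq_mul]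
    exact I.mul_mem_right _ hc
  have hn : ∀ c ∈ I, ∀ i j : ι, (-(c • (1 : Matrix ι ι S))) i j ∈ I := by
    intro c hc i j
    rw [Matrix.neg_apply]
    exact I.neg_mem (hs c hc i j)
  have e : (f + a * b) • (1 : Matrix (ι ⊕ ι) (ι ⊕ ι) S) =
      Matrix.fromBlocks ((f + a * b) • 1) 0 0 ((f + a * b) • 1) := by
    rw [← Matrix.fromBlocks_one, Matrix.fromBlocks_smul, smul_zero]
  refine ⟨ι ⊕ ι, inferInstance, inferInstance, inferInstance,
    Matrix.fromBlocks A (-(b • 1)) (a • 1) B, Matrix.fromBlocks B (b • 1) (-(a • 1)) A,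
    ?_, ?_, ?_, ?_⟩
  · rintro (i | i) (j | j)
    · exact hA i j
    · exact hn b hb i j
    · exact hs a ha i j
    · exact hB i j
  · rintro (i | i) (j | j)
    · exact hB i j
    · exact hs b hb i j
    · exact hn a ha i j
    · exact hA i j
  · rw [Matrix.fromBlocks_multiply, e]
    have e1 : A * B + -(b • (1 : Matrix ι ι S)) * -(a • (1 : Matrix ι ι S)) =
        (f + a * b) • (1 : Matrix ι ι S) := by
      rw [neg_mul_neg, smul_mul_smul_comm, mul_one, h1, ← add_smul, mul_comm b a]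
    have e2 : A * (b • (1 : Matrix ι ι S)) + -(b • (1 : Matrix ι ι S)) * A = 0 := by
      rw [mul_smul_comm, mul_one, neg_mul, smul_mul_assoc, one_mul, add_neg_cancel]
    have e3 : (a • (1 : Matrix ι ι S)) * B + B * -(a • (1 : Matrix ι ι S)) = 0 := by
      rw [mul_neg, mul_smul_comm, mul_one, smul_mul_assoc, one_mul, add_neg_cancel]
    have e4 : (a • (1 : Matrix ι ι S)) * (b • (1 : Matrix ι ι S)) + B * A =
        (f + a * b) • (1 : Matrix ι ι S) := by
      rw [smul_mul_smul_comm, mul_one, h2, ← add_smul, add_comm]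
    rw [e1, e2, e3, e4]
  · rw [Matrix.fromBlocks_multiply, e]
    have e1 : B * A + (b • (1 : Matrix ι ι S)) * (a • (1 : Matrix ι ι S)) =
        (f + a * b) • (1 : Matrix ι ι S) := by
      rw [smul_mul_smul_comm, mul_one, h2, ← add_smul, mul_comm b a]
    have e2 : B * -(b • (1 : Matrix ι ι S)) + (b • (1 : Matrix ι ι S)) * B = 0 := by
      rw [mul_neg, mul_smul_comm, mul_one, smul_mul_assoc, one_mul, neg_add_cancel]
    have e3 : -(a • (1 : Matrix ι ι S)) * A + A * (a • (1 : Matrix ι ι S)) = 0 := by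
      rw [neg_mul, mul_smul_comm, mul_one, smul_mul_assoc, one_mul, neg_add_cancel]
    have e4 : -(a • (1 : Matrix ι ι S)) * -(b • (1 : Matrix ι ι S)) + A * B =
        (f + a * b) • (1 : Matrix ι ι S) := by
      rw [neg_mul_neg, smul_mul_smul_comm, mul_one, h1, ← add_smul, add_comm]
    rw [e1, e2, e3, e4]

theorem all {S : Type u} [CommRing S] {I : Ideal S} {g : S} (hg : g ∈ I ^ 2) :
    ∀ f : S, Cf I f → Cf I (f + g) := by
  rw [pow_two] at hg
  induction hg using Submodule.mul_induction_on' with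
  | mem_mul_mem a ha b hb => exact fun f hf => step hf ha hb
  | add x _ y _ hx hy =>
    intro f hf
    rw [← add_assoc]
    exact hy _ (hx _ hf)

/-- DD-MF -/
theorem t : S_MF := by
  intro S _ I f hf
  have h := all hf 0 (zero I)
  rw [zero_add] at h
  exact h

end Pool.Agent.Y604.DC.MF
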