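import Pool.Agent.Y198.DC.Stm

/-!
Jobs DC-SEQ and DC-REG of helper198. The second proof is adapted from
`H503R3.CC.Data.regular_at`.
-/

universe u v

open CategoryTheory IsLocalRing TensorProduct Pointwise

namespace Pool.Agent.Y604.DC

open H503R3.CC Pool.Agent.Y198.DC

theorem seq_aux {R : Type u} [CommRing R] [IsLocalRing R] [IsNoetherianRing R] [IsDomain R]
    {n : ℕ} {x : ℕ → R} {w : R} (h : Data R n x w) (k : ℕ) : ∀ i : ℕ, i + k = n →
      RingTheory.Sequence.IsWeaklyRegular (R ⧸ P x w i) ((List.range' (i + 1) k).map x) := by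
  induction k with
  | zero =>
    intro i _
    exact RingTheory.Sequence.IsWeaklyRegular.nil R _
  | succ k ih =>
    intro i hi
    rw [List.range'_succ, List.map_cons, RingTheory.Sequence.isWeaklyRegular_cons_iff]
    have hprime := h.prime i (by omega)
    constructor
    · rw [isSMulRegular_iff_right_eq_zero_of_smul]
      intro r hr
      obtain ⟨r, rfl⟩ := Ideal.Quotient.mk_surjective r
      change Ideal.Quotient.mk _ (x (i + 1) * r) = 0 at hr
      rw [Ideal.Quotient.eq_zero_iff_mem] at hr ⊢
      exact (hprime.mem_or_mem hr).resolve_left (h.notMem i (by omega))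
    · have e : QuotSMulTop (x (i + 1)) (R ⧸ P x w i) ≃ₗ[R] R ⧸ P x w (i + 1) :=
        (quotEquiv (P x w i) (x (i + 1))).trans
          (Submodule.quotEquivOfEq _ _ (P_succ x w i).symm)
      rw [LinearEquiv.isWeaklyRegular_congr e]
      exact ih (i + 1) (by omega)

/-- DC-SEQ -/
theorem t : S_SEQ := by
  intro R _ _ _ _ n x w h i hi
  exact seq_aux h (n - i) i (by omega)

/-- DC-REG -/
theorem t2 : S_REG := by
  intro R _ _ _ _ n x w h i hi hp
  classical
  set L := Localization.AtPrime (P x w i) with hL
  set a : R →+* L := algebraMap R L with ha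
  set T : Finset L := insert (a w) ((Finset.Icc 1 i).image fun j => a (x j)) with hT
  have hcard : T.card ≤ i + 1 := by
    refine (Finset.card_insert_le _ _).trans ?_
    have h1 : ((Finset.Icc 1 i).image fun j => a (x j)).card ≤ i :=
      Finset.card_image_le.trans (by simp)
    omega
  have hxn : x n ∉ P x w i := fun hc => h.y_notMem (Data.P_mono (by omega) hc)
  have hu : IsUnit (a (x n)) := by
    apply IsLocalization.map_units L (⟨x n, hxn⟩ : (P x w i).primeCompl)
  obtain ⟨v, hv⟩ := hu.exists_right_inv
  have hx0 : a (x 0) = (v * a w) * a w := by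
    have h1 : a w ^ 2 = a (x 0) * a (x n) := by
      rw [← map_pow, h.sq, map_mul]
    calc a (x 0) = a (x 0) * (a (x n) * v) := by rw [hv, mul_one]
      _ = (a (x 0) * a (x n)) * v := by ring
      _ = (v * a w) * a w := by rw [← h1]; ring
  have hspan : maximalIdeal L = Ideal.span (T : Set L) := by
    have h1 : Ideal.map a (P x w i) = maximalIdeal L :=
      Localization.AtPrime.map_eq_maximalIdeal
    have h1' : Ideal.map a (P x w i) =
      Ideal.span (a '' insert w (x '' {j | j ≤ i})) := Ideal.map_span a _
    rw [← h1, h1']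
    apply le_antisymm
    · rw [Ideal.span_le]
      have hw : a w ∈ Ideal.span (T : Set L) := Ideal.subset_span (by simp [hT])
      rintro r ⟨s, (rfl | ⟨j, hj, rfl⟩), rfl⟩
      · exact hw
      · have hj' : j ≤ i := hj
        rcases Nat.eq_zero_or_pos j with h0 | h0
        · subst h0
          rw [hx0]
          exact Ideal.mul_mem_left _ _ hw
        · apply Ideal.subset_span
          rw [hT, Finset.coe_insert, Finset.coe_image]
          exact Set.mem_insert_of_mem _ ⟨j, by simp; omega, rfl⟩
    · rw [Ideal.span_le, hT, Finset.coe_insert, Finset.coe_image]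
      rintro r (rfl | ⟨j, hj, rfl⟩)
      · exact Ideal.subset_span ⟨w, Set.mem_insert _ _, rfl⟩
      · apply Ideal.subset_span
        refine ⟨x j, Set.mem_insert_of_mem _ ⟨j, ?_, rfl⟩, rfl⟩
        have : 1 ≤ j ∧ j ≤ i := by simpa using hj
        exact this.2
  have hN : IsNoetherianRing L := IsLocalization.isNoetherianRing (P x w i).primeCompl L
    inferInstance
  apply IsRegularLocalRing.of_spanFinrank_maximalIdeal_le
  have hdim : ringKrullDim L = ((P x w i).height : WithBot ℕ∞) :=
    IsLocalization.AtPrime.ringKrullDim_eq_height (P x w i) L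
  rw [hdim, hspan]
  have h2 := Submodule.spanFinrank_span_le_ncard_of_finite (R := L) (T.finite_toSet)
  rw [Set.ncard_coe_finset] at h2
  have h3 : (Ideal.span (T : Set L)).spanFinrank ≤ i + 1 := h2.trans hcard
  have h4 := h.le_height (i := i) hi.le
  have h5 : (((Ideal.span (T : Set L)).spanFinrank : ℕ) : ℕ∞) ≤ (P x w i).height :=
    le_trans (by exact_mod_cast h3) h4
  exact_mod_cast h5

end Pool.Agent.Y604.DC
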